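import Pool.Agent.helper47.AKL.SpecK
import Pool.Agent.helper92.TD.KLF

/-!
# Project A+ (MP_3703a7_ag), row KST: THE ASSEMBLY
-/

set_option autoImplicit false

namespace Pool.Agent.AKL

open Polynomial Pool.Agent.HC Pool.Agent.HC.SJ Pool.Agent.SJ Pool.Agent.GJ Pool.Agent.TK Pool.Agent.TD
open Pool.Agent.FJ (VT Om chiO Jac Tup)
open Pool.Agent.AQ (PF galP eg Blk)
open Pool.Agent.TQ (VA galA zA)
open Pool.Agent.TI (TZ WA bs ES WC PL1_stmt PL2_stmt)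
open scoped TensorProduct

noncomputable section

section act
variable {l : ℕ} [Fact l.Prime] {D : Dat l} (q : ℕ) [Fact q.Prime]

theorem KST_one (hG : AQ.BGP_stmt) (i : Fin D.k) (g : Om ≃+* Om) (hg : PF D g) (h : g = 1) (v : VA D q i) : galP q hg i v = v := by
  subst h
  exact ((hG l q D).2.2.2 i).2.1 hg v

theorem KST_mul (hG : AQ.BGP_stmt) (hA : AllP D) (i : Fin D.k) (σ τ : ↥(G0 l)) (v : VA D q i) :
    galP q (hA (σ * τ).1 (σ * τ).2) i v = galP q (hA σ.1 σ.2) i (galP q (hA τ.1 τ.2) i v) :=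
  ((hG l q D).2.2.2 i).1 σ.1 τ.1 (hA σ.1 σ.2) (hA τ.1 τ.2) (hA (σ * τ).1 (σ * τ).2) v

/-- the action of the automorphisms over `ℚ(ζ_l)` on `V_q(J_i)` -/
def KST_rho (hG : AQ.BGP_stmt) (hA : AllP D) (i : Fin D.k) : ↥(G0 l) →* (VA D q i ≃ₗ[ℚ_[q]] VA D q i) where
  toFun σ := LinearEquiv.ofLinearMap (galP q (hA σ.1 σ.2) i) (galP q (hA (σ⁻¹).1 (σ⁻¹).2) i)
    (LinearMap.ext fun v => (KST_mul q hG hA i σ σ⁻¹ v).symm.trans (KST_one q hG i _ _ (mul_inv_cancel σ.1) v))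
    (LinearMap.ext fun v => (KST_mul q hG hA i σ⁻¹ σ v).symm.trans (KST_one q hG i _ _ (inv_mul_cancel σ.1) v))
  map_one' := by
    refine LinearEquiv.ext fun v => ?_
    show galP q (hA (1 : ↥(G0 l)).1 (1 : ↥(G0 l)).2) i v = v
    exact KST_one q hG i _ _ rfl v
  map_mul' σ τ := by
    refine LinearEquiv.ext fun v => ?_
    show galP q (hA (σ * τ).1 (σ * τ).2) i v = galP q (hA σ.1 σ.2) i (galP q (hA τ.1 τ.2) i v)
    exact KST_mul q hG hA i σ τ v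

theorem KST_rho_apply (hG : AQ.BGP_stmt) (hA : AllP D) (i : Fin D.k) (σ : ↥(G0 l)) (h : PF D σ.1) (v : VA D q i) :
    KST_rho q hG hA i σ v = galP q h i v := rfl

theorem KST_rho_coe (hG : AQ.BGP_stmt) (hA : AllP D) (i : Fin D.k) (σ : ↥(G0 l)) (h : PF D σ.1) :
    (KST_rho q hG hA i σ : VA D q i →ₗ[ℚ_[q]] VA D q i) = galP q h i := rfl

/-- the automorphisms which fix the branch points and the set `S` -/
def KST_H (D : Dat l) (S : Finset Om) : Subgroup ↥(G0 l) where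
  carrier := {σ | D.Fix σ.1 ∧ ∀ x ∈ S, σ.1 x = x}
  mul_mem' := by
    rintro σ τ ⟨h1, h2⟩ ⟨h3, h4⟩
    refine ⟨fun i j => ?_, fun x hx => ?_⟩
    · show σ.1 (τ.1 _) = _
      rw [h3, h1]
    · show σ.1 (τ.1 x) = x
      rw [h4 x hx, h2 x hx]
  one_mem' := ⟨fun _ _ => rfl, fun _ _ => rfl⟩
  inv_mem' := by
    rintro σ ⟨h1, h2⟩
    refine ⟨fun i j => ?_, fun x hx => ?_⟩
    · show σ.1.symm _ = _
      rw [RingEquiv.symm_apply_eq, h1]
    · show σ.1.symm x = x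
      rw [RingEquiv.symm_apply_eq, h2 x hx]

theorem KST_normal (hA : AllP D) {S : Finset Om} (hS : ∀ σ : Om ≃+* Om, ∀ x ∈ S, σ x ∈ S) : (KST_H D S).Normal := by
  refine ⟨fun h hh g => ⟨fun i j => ?_, fun x hx => ?_⟩⟩
  · show g.1 (h.1 (g.1.symm (D.a i j))) = D.a i j
    obtain ⟨π, hπ⟩ := (hA (g⁻¹).1 (g⁻¹).2).2 i
    have h1 : g.1.symm (D.a i j) = D.a i (π j) := hπ.pt j
    rw [h1, hh.1, ← h1, RingEquiv.apply_symm_apply]
  · show g.1 (h.1 (g.1.symm x)) = x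
    rw [hh.2 _ (hS g.1.symm x hx), RingEquiv.apply_symm_apply]

end act

/-- a finite set stable under all automorphisms -/
theorem KST_stab (S : Finset Om) : ∃ S' : Finset Om, S ⊆ S' ∧ ∀ σ : Om ≃+* Om, ∀ x ∈ S', σ x ∈ S' := by
  classical
  have : Algebra.IsAlgebraic ℚ Om := AlgebraicClosure.isAlgebraic ℚ
  have hne : ∀ x : Om, minpoly ℚ x ≠ 0 := fun x => minpoly.ne_zero (Algebra.IsIntegral.isIntegral x)
  refine ⟨S.biUnion fun x => ((minpoly ℚ x).aroots Om).toFinset, fun x hx => ?_, fun σ y hy => ?_⟩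
  · rw [Finset.mem_biUnion]
    refine ⟨x, hx, ?_⟩
    rw [Multiset.mem_toFinset, Polynomial.mem_aroots]
    exact ⟨hne x, minpoly.aeval ℚ x⟩
  · rw [Finset.mem_biUnion] at hy ⊢
    obtain ⟨x, hx, hy⟩ := hy
    refine ⟨x, hx, ?_⟩
    rw [Multiset.mem_toFinset, Polynomial.mem_aroots] at hy ⊢
    refine ⟨hy.1, ?_⟩
    have h1 := Polynomial.aeval_algHom_apply (RingHom.toRatAlgHom (σ : Om →+* Om)) y (minpoly ℚ x)
    rw [hy.2, map_zero] at h1
    exact h1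

theorem KST_roots (r : ℕ) (m : Fin r → ℕ) (hm : ∀ j, 0 < m j) : ∃ R : Finset Om, ∀ j, ∀ x : Om, x ^ m j = 1 → x ∈ R := by
  classical
  refine ⟨Finset.univ.biUnion fun j : Fin r => Polynomial.nthRootsFinset (m j) (1 : Om), fun j x hx => ?_⟩
  rw [Finset.mem_biUnion]
  exact ⟨j, Finset.mem_univ _, (Polynomial.mem_nthRootsFinset (hm j) _).2 hx⟩

theorem KST_prim (l : ℕ) [Fact l.Prime] : ∃ s : rootsOfUnity l Om, Prim s := by
  have hne : NeZero (l : Om) := ⟨Nat.cast_ne_zero.2 (Fact.out : l.Prime).ne_zero⟩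
  have hne2 : NeZero l := ⟨(Fact.out : l.Prime).ne_zero⟩
  obtain ⟨z, hz⟩ := HasEnoughRootsOfUnity.exists_primitiveRoot Om l
  exact ⟨hz.toRootsOfUnity, hz⟩

theorem KST_emb (q : ℕ) [Fact q.Prime] : Nonempty (Om →+* PadicAlgCl q) := by
  have : Algebra.IsAlgebraic ℚ Om := AlgebraicClosure.isAlgebraic ℚ
  exact ⟨((IsAlgClosed.lift : Om →ₐ[ℚ] PadicAlgCl q) : Om →+* PadicAlgCl q)⟩

theorem KST_eig {k Ω V : Type} [Field k] [Field Ω] [Algebra k Ω] [AddCommGroup V] [Module k V] (A : Module.End k V) (x : Ω ⊗[k] V) (c : Ω)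
    (h : LinearMap.baseChange Ω A x = c • x) (n : ℕ) : LinearMap.baseChange Ω (A ^ n : Module.End k V) x = c ^ n • x := by
  induction n with
  | zero =>
    rw [pow_zero, pow_zero, one_smul]
    show LinearMap.baseChange Ω (LinearMap.id : V →ₗ[k] V) x = x
    rw [LinearMap.baseChange_id]
    rfl
  | succ n ih =>
    rw [pow_succ]
    show LinearMap.baseChange Ω ((A ^ n : Module.End k V) ∘ₗ A) x = _
    rw [LinearMap.baseChange_comp, LinearMap.comp_apply, h, map_smul, ih, smul_smul, pow_succ, mul_comm]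

theorem KST_gen {Ω : Type} [Field Ω] {k h : ℕ} {n : Fin k → ℕ} (α : ∀ i, Fin h → Fin (n i) → Ω) (c : Ω) (x : ∀ i, Fin h → Fin (n i) → ℤ) (c' : ℤ) (M : ℕ) :
    (∏ i, ∏ s, ∏ t, (α i s t ^ M) ^ x i s t) * (c ^ M) ^ c' = ((∏ i, ∏ s, ∏ t, α i s t ^ x i s t) * c ^ c') ^ M := by
  have h1 : ∀ (y : Ω) (z : ℤ), (y ^ M) ^ z = (y ^ z) ^ M := fun y z => by
    rw [← zpow_natCast, ← zpow_natCast, zpow_comm]
  simp only [h1, mul_pow, Finset.prod_pow]

theorem KST (hPL1 : TI.PL1_stmt) (hLKI : AQ.LKI_stmt) (hKNB : KNB_stmt) (hFRB : FRB_stmt) (hBGP : AQ.BGP_stmt)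
    (hNB1 : TQ.NB1_stmt) (hDD : DD_stmt) (hT7 : T7_stmt) (h10 : R10_stmt) (hA4 : FJ.A4_stmt)
    (hKJO : KJO_stmt) (hc2 : CL2_stmt) (hc3 : CL3_stmt) (hp : CP1_stmt) : KST_stmt := by
  classical
  intro l q _ _ hl D hn hInd hSep hA hθl hLoc ι C S b X hX A hAA
  have hne : NeZero (l : Om) := ⟨Nat.cast_ne_zero.2 (Fact.out : l.Prime).ne_zero⟩
  have hDed : ∀ i, IsDedekindDomain (CR Om l (D.μ i) (D.a i)) := fun i => hDD Om l _ _ _
  have hOK : TQ.IsOK D C.toCmp.tht := TQ.C1_OK C.toCmp hKJO hc2 hc3 hp hl hn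
  obtain ⟨nb1, nb2, nb3, nb4, nb5, nb6, nb7, nb8, nb9, nb10, nb11, nb12, nb13⟩ := hNB1 l q D
  obtain ⟨s, hs⟩ := KST_prim l
  obtain ⟨jq⟩ := KST_emb q
  have hprim : IsPrimitiveRoot (jq ((s : Omˣ) : Om)) l := by
    have h1 : IsPrimitiveRoot ((s : Omˣ) : Om) l := hs
    exact h1.map_of_injective jq.injective
  have hfin : ∀ i, FiniteDimensional ℚ_[q] (VA D q i) := fun i => by
    obtain ⟨v, bb, -⟩ := hOK.free i s hs
    exact bb.finiteDimensional_of_finite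
  have hfinB : FiniteDimensional ℚ_[q] (VBq D q) := KLF_fin C
  obtain ⟨R, hR⟩ := KST_roots D.r D.m (fun j => Nat.pos_of_ne_zero (NeZero.ne _))
  obtain ⟨S', hSS', hS'⟩ := KST_stab (S ∪ R)
  obtain ⟨M, hM0, hM⟩ := hT7 S'
  obtain ⟨θl, hθl⟩ := hθl
  have hWC : ∀ i, ∃ φ, WC D i φ := fun i => by
    obtain ⟨τ, φ, hτ, hφ, hw, -⟩ := (hLoc i).ex
    exact ⟨φ, hw⟩
  obtain ⟨F, hF, Q, v, α, hF1, hQ0, hQ, hα, hv, hgen⟩ :=
    hPL1 l q hl D hn hInd hSep hA θl hθl hWC (2 * max 2 (2 * b)) jq s hs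
  have hN : (KST_H D S').Normal := KST_normal hA hS'
  let F0 : ↥(G0 l) := ⟨F, hF1⟩
  have hF0 : F0 ∈ KST_H D ∅ := ⟨hF, fun x hx => absurd hx (Finset.notMem_empty x)⟩
  have hF0M : F0 ^ M ∈ KST_H D ∅ := Subgroup.pow_mem _ hF0 M
  have hFM : D.Fix (F ^ M) := hF0M.1
  let h0 : ↥(KST_H D S') := ⟨F0 ^ M, hFM, fun x hx => hM F x hx⟩
  let ρ : ∀ i, ↥(KST_H D S') →* (VA D q i ≃ₗ[ℚ_[q]] VA D q i) := fun i => (KST_rho q hBGP hA i).comp (KST_H D S').subtype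
  have hρ : ∀ i (h : ↥(KST_H D S')), (ρ i h : VA D q i →ₗ[ℚ_[q]] VA D q i) = galA q h.2.1 i := fun i h =>
    LinearMap.ext fun x => ((hBGP l q D).2.2.2 i).2.2.1 h.1.1 (hA h.1.1 h.1.2) h.2.1 x
  let ρW : ↥(KST_H D S') →* (VBq D q ≃ₗ[ℚ_[q]] VBq D q) :=
    { toFun := fun h => LGF_eq D q h10 hA4 h.1.1
      map_one' := LinearEquiv.ext fun x => DFunLike.congr_fun (LGF_one D q h10 hA4) x
      map_mul' := fun h h' => LinearEquiv.ext fun x => DFunLike.congr_fun (LGF_mul D q h10 hA4 h.1.1 h'.1.1) x }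
  have hρW : ∀ h : ↥(KST_H D S'), (ρW h : VBq D q →ₗ[ℚ_[q]] VBq D q) = galBq D q h.1.1 := fun h => rfl
  obtain ⟨J, hJ, f, hf⟩ := hFRB l q D ι C (PadicAlgCl q)
  have hfix : ∀ (h : ↥(KST_H D S')) (j : Fin D.r) (x : Om), x ^ D.m j = 1 → h.1.1 x = x := fun h j x hx =>
    h.2.2 x (hSS' (Finset.mem_union_right _ (hR j x hx)))
  have hf' : ∀ (j : J) (h : ↥(KST_H D S')), ∃ c : PadicAlgCl q, LinearMap.baseChange (PadicAlgCl q) (galBq D q h.1.1) (f j) = c • f j :=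
    fun j h => hf h.1.1 (hfix h) j
  choose ψ hψ using hf'
  have hχ0 : algebraMap ℚ_[q] (PadicAlgCl q) (chiO q (F ^ M)) = (Q : PadicAlgCl q) ^ M := by
    rw [nb10, hQ, map_pow, map_natCast]
  have hzpow : ∀ i (j : ℕ), (zA D q i s : Module.End ℚ_[q] (VA D q i)) ^ j = zA D q i (s ^ j) := by
    intro i j
    induction j with
    | zero => rw [pow_zero, pow_zero, nb5]; rfl
    | succ j ih => rw [pow_succ, pow_succ, nb4, ih]; rfl
  have hr : ∀ r : Fin ((l - 1) / 2), (r : ℕ) + 1 < l := fun r => by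
    have h1 := r.2
    have h2 := (Fact.out : l.Prime).two_le
    omega
  let G : Subgroup (∀ i, VA D q i ≃ₗ[ℚ_[q]] VA D q i) := (MonoidHom.pi fun i => KST_rho q hBGP hA i).range
  have hcomZ : ∀ (σ : ↥(G0 l)) i x, KST_rho q hBGP hA i σ (zA D q i s x) = zA D q i s (KST_rho q hBGP hA i σ x) := fun σ i x =>
    ((hBGP l q D).2.2.2 i).2.2.2.1 σ.1 (hA σ.1 σ.2) s x
  have key := hLKI ℚ_[q] (PadicAlgCl q) ↥(KST_H D S') l D.k Fact.out hl (jq ((s : Omˣ) : Om)) hprim (fun i => VA D q i) D.e D.n (VBq D q)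
    (fun i => zA D q i s) (fun i => hOK.free i s hs) (fun i => nb7 i s hs) C.toCmp.tht (fun i => (hOK.th i).deg) (fun i => (hOK.th i).nondeg)
    (fun i => (hOK.th i).zeta s) ρ ρW (fun h => chiO q h.1.1)
    (fun h i => by rw [hρ i h]; exact (hOK.th i).tate h.1.1 h.2.1) J f (fun j h => ψ j h) (fun h j => hψ j h)
    (max 2 (2 * b)) (le_max_left _ _) h0 (fun i x => hcomZ _ i x) (nb11 _) v (fun i r t => α i r t ^ M)
    (fun i r t => pow_ne_zero _ (hα i r t))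
    (fun i r t => by
      rw [hρ i h0]
      have h1 : galA q h0.2.1 i = (galA q hF i : Module.End ℚ_[q] (VA D q i)) ^ M := nb3 F hF M hFM i
      rw [h1]
      exact KST_eig (galA q hF i : Module.End ℚ_[q] (VA D q i)) _ _ (hv i r t) M)
    (by
      intro x c' hx hc' h
      have h1 : algebraMap ℚ_[q] (PadicAlgCl q) (chiO q h0.1.1) = (Q : PadicAlgCl q) ^ M := hχ0
      rw [h1, KST_gen] at h
      exact hgen x c' M (fun i r t => by exact_mod_cast hx i r t) (by exact_mod_cast hc') hM0 h)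
    G
    (by
      rintro g ⟨σ, rfl⟩ i x
      exact hcomZ σ i x)
    (by
      rintro g ⟨σ, rfl⟩
      refine ⟨(MulAut.conjNormal σ⁻¹ : MulAut ↥(KST_H D S')).toEquiv, fun h i x => ?_⟩
      show KST_rho q hBGP hA i h.1 (KST_rho q hBGP hA i σ x) = KST_rho q hBGP hA i σ (KST_rho q hBGP hA i ((MulAut.conjNormal σ⁻¹ h : ↥(KST_H D S')) : ↥(G0 l)) x)
      rw [MulAut.conjNormal_apply, ← LinearEquiv.mul_apply, ← LinearEquiv.mul_apply, ← map_mul, ← map_mul]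
      congr 2
      group)
    (by
      intro i r U hU hst
      obtain ⟨τ, φ, hτ, hφ, -, hloc⟩ := (hLoc i).ex
      refine (hloc s hs _ hprim ((r : ℕ) + 1) (Nat.succ_pos _) (hr r)).2 U hU ?_ ?_
      · intro w hw
        exact hst _ ⟨⟨τ, hτ.1⟩, rfl⟩ w hw
      · intro w hw
        exact hst _ ⟨⟨φ, hφ.1⟩, rfl⟩ w hw)
    (by
      intro i r T hT hTc hTU hTst g hg U hU
      obtain ⟨σ, rfl⟩ := hg
      exact hKNB l q hl D hn hInd hSep hA ⟨θl, hθl⟩ C.toCmp.tht hOK i (hLoc i) jq s hs r T hT hTc hTU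
        (fun g hg U hU => hTst _ ⟨⟨g, hg.1⟩, rfl⟩ U hU) σ.1 (hA σ.1 σ.2) U hU)
    A (fun i => (hAA i).comm s) (fun i => (hAA i).kill)
    (fun i j => by
      rw [hzpow]
      exact (hAA i).tr (s ^ j))
    (2 * b) (le_max_right _ _) X hX.deg (fun h => chiO q h.1.1 ^ b)
    (fun h => by
      have h1 := hX.tate h.1.1 h.2.1 (fun x hx => h.2.2 x (hSS' (Finset.mem_union_left _ hx)))
      have h2 : (fun i => (ρ i h : VA D q i →ₗ[ℚ_[q]] VA D q i)) = galA q h.2.1 := funext fun i => hρ i h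
      rw [h2, hρW h]
      exact h1)
  exact key

end

end Pool.Agent.AKL
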