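import Pool.Agent.helper46.TD.All
import Pool.Agent.helper85.AQ.All
import Pool.Agent.helper63.TI.All
import Pool.Agent.helper47.AKL.KST
import Pool.Agent.helper22.AKL.KNB
import Pool.Agent.helper20.AKL.KL1
import Pool.Agent.helper98.AKL.KOK
import Pool.Agent.helper42.AKL.KLO

/-!
# Project A+ (MP_3703a7_ag): closed values of the statements of `Pool/Agent/helper47/AKL/SpecK.lean`, no hypotheses
-/

set_option autoImplicit false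

namespace Pool.Agent.AKLAll

theorem t_FRB : Pool.Agent.AKL.FRB_stmt := Pool.Agent.AKL.FRB Pool.Agent.TKAll.t_R10 Pool.Agent.FJ.t_A4

theorem t_KOK : Pool.Agent.AKL.KOK_stmt := Pool.Agent.AKL.KOK Pool.Agent.CMAll.t_H19 Pool.Agent.TQAll.t_QN4 Pool.Agent.TQAll.t_QCM
  Pool.Agent.SJ.T_KJO Pool.Agent.TKAll.t_CL2 Pool.Agent.TKAll.t_CL3 Pool.Agent.TKAll.t_CP1

theorem t_KL1 : Pool.Agent.AKL.KL1_stmt := Pool.Agent.AKL.KL1 Pool.Agent.AQAll.t_LDE Pool.Agent.AQAll.t_BGP Pool.Agent.TQ.t_NB1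
  Pool.Agent.TKAll.t_DD

theorem t_KLO : Pool.Agent.AKL.KLO_stmt := Pool.Agent.AKL.KLO Pool.Agent.TIAll.t_WCI

theorem t_KNB : Pool.Agent.AKL.KNB_stmt := Pool.Agent.AKL.KNB Pool.Agent.TIAll.t_PL2 Pool.Agent.AQAll.t_LNM Pool.Agent.AQAll.t_LDE
  Pool.Agent.AQAll.t_BGP Pool.Agent.TQ.t_NB1 Pool.Agent.TKAll.t_DD

theorem t_KST : Pool.Agent.AKL.KST_stmt := Pool.Agent.AKL.KST Pool.Agent.TIAll.t_PL1 Pool.Agent.AQAll.t_LKI t_KNB t_FRB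
  Pool.Agent.AQAll.t_BGP Pool.Agent.TQ.t_NB1 Pool.Agent.TKAll.t_DD Pool.Agent.TKAll.t_T7 Pool.Agent.TKAll.t_R10 Pool.Agent.FJ.t_A4
  Pool.Agent.SJ.T_KJO Pool.Agent.TKAll.t_CL2 Pool.Agent.TKAll.t_CL3 Pool.Agent.TKAll.t_CP1

end Pool.Agent.AKLAll
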