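import Pool.Agent.helper46.TD.SpecU
import Pool.Agent.helper45.TD.COM
import Pool.Agent.helper55.TD.LGF

/-!
# Project A+ (MP_3703a7_ag), row FRB: a basis of `Ω ⊗ V_q(J_F)` of common eigenvectors of the automorphisms which fix the roots of unity of order `m_j`
-/

set_option autoImplicit false

namespace Pool.Agent.AKL

open Polynomial Pool.Agent.HC Pool.Agent.HC.SJ Pool.Agent.SJ Pool.Agent.GJ Pool.Agent.TK Pool.Agent.TD
open Pool.Agent.FJ (VT Om chiO Jac Tup)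
open scoped TensorProduct

noncomputable section

/-- FRB: the operators on `Ω ⊗ V_q(J_F)` of the automorphisms which fix the `m_j`-th roots of unity are diagonal in a common basis. -/
def FRB_stmt : Prop := ∀ (l q : ℕ) [Fact l.Prime] [Fact q.Prime] (D : Dat l) (ι : Om →+* ℂ), CmpF D q ι →
  ∀ (Ω : Type) [Field Ω] [IsAlgClosed Ω] [CharZero Ω] [Algebra ℚ_[q] Ω],
  ∃ (J : Type) (_ : Fintype J) (f : Module.Basis J Ω (Ω ⊗[ℚ_[q]] VBq D q)),
    ∀ g : Om ≃+* Om, (∀ j, ∀ x : Om, x ^ D.m j = 1 → g x = x) →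
      ∀ j, ∃ c : Ω, LinearMap.baseChange Ω (galBq D q g) (f j) = c • f j

/-! ## Linear algebra -/

section lin
variable {k Ω V T : Type} [Field k] [Field Ω] [Algebra k Ω] [AddCommGroup V] [Module k V] [CommGroup T] [Fintype T]

/-- `∑ χ(t)⁻¹ t` -/
def FRB_e (ρ : T →* Module.End k V) (χ : T →* Ωˣ) : Ω ⊗[k] V →ₗ[Ω] Ω ⊗[k] V :=
  ∑ t, (((χ t)⁻¹ : Ωˣ) : Ω) • LinearMap.baseChange Ω (ρ t)

theorem FRB_e_apply (ρ : T →* Module.End k V) (χ : T →* Ωˣ) (x : Ω ⊗[k] V) :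
    FRB_e ρ χ x = ∑ t, (((χ t)⁻¹ : Ωˣ) : Ω) • LinearMap.baseChange Ω (ρ t) x := by
  simp [FRB_e, LinearMap.sum_apply]

omit [Fintype T] in
theorem FRB_mul (ρ : T →* Module.End k V) (s t : T) (x : Ω ⊗[k] V) :
    LinearMap.baseChange Ω (ρ s) (LinearMap.baseChange Ω (ρ t) x) = LinearMap.baseChange Ω (ρ (s * t)) x := by
  rw [map_mul]
  change _ = LinearMap.baseChange Ω (ρ s ∘ₗ ρ t) x
  rw [LinearMap.baseChange_comp]
  rfl

theorem FRB_sum (ρ : T →* Module.End k V) (χ : T →* Ωˣ) (s : T) (x : Ω ⊗[k] V) :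
    ∑ t, (((χ t)⁻¹ : Ωˣ) : Ω) • LinearMap.baseChange Ω (ρ (s * t)) x = ((χ s : Ωˣ) : Ω) • FRB_e ρ χ x := by
  rw [FRB_e_apply, Finset.smul_sum, ← Equiv.sum_comp (Equiv.mulLeft s) (fun t => ((χ s : Ωˣ) : Ω) • (((χ t)⁻¹ : Ωˣ) : Ω) • LinearMap.baseChange Ω (ρ t) x)]
  refine Finset.sum_congr rfl fun t _ => ?_
  rw [smul_smul]
  congr 1
  rw [Equiv.coe_mulLeft, map_mul, mul_inv, Units.val_mul, ← mul_assoc, ← Units.val_mul, mul_inv_cancel, Units.val_one, one_mul]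

theorem FRB_e_left (ρ : T →* Module.End k V) (χ : T →* Ωˣ) (s : T) (x : Ω ⊗[k] V) :
    LinearMap.baseChange Ω (ρ s) (FRB_e ρ χ x) = ((χ s : Ωˣ) : Ω) • FRB_e ρ χ x := by
  rw [← FRB_sum, FRB_e_apply, map_sum]
  refine Finset.sum_congr rfl fun t _ => ?_
  rw [map_smul, FRB_mul]

theorem FRB_e_right (ρ : T →* Module.End k V) (χ : T →* Ωˣ) (s : T) (x : Ω ⊗[k] V) :
    FRB_e ρ χ (LinearMap.baseChange Ω (ρ s) x) = ((χ s : Ωˣ) : Ω) • FRB_e ρ χ x := by
  rw [← FRB_sum, FRB_e_apply]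
  refine Finset.sum_congr rfl fun t _ => ?_
  rw [FRB_mul, mul_comm t s]

theorem FRB_orth (χ ψ : T →* Ωˣ) (h : ψ ≠ χ) : ∑ t, (((ψ t)⁻¹ : Ωˣ) : Ω) * ((χ t : Ωˣ) : Ω) = 0 := by
  set f : T →* Ω := (Units.coeHom Ω).comp (ψ⁻¹ * χ) with hf
  have h1 : f ≠ 1 := by
    intro h0
    apply h
    ext t
    have h2 := DFunLike.congr_fun h0 t
    have h3 : (((ψ t)⁻¹ * χ t : Ωˣ) : Ω) = 1 := h2
    have h4 : (ψ t)⁻¹ * χ t = 1 := Units.ext h3
    rw [inv_mul_eq_one] at h4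
    rw [h4]
  have h2 := sum_hom_units_eq_zero f h1
  rw [← h2]
  refine Finset.sum_congr rfl fun t _ => ?_
  rw [hf]
  simp

theorem FRB_ee (ρ : T →* Module.End k V) (χ ψ : T →* Ωˣ) (x : Ω ⊗[k] V) [DecidableEq (T →* Ωˣ)] :
    FRB_e ρ ψ (FRB_e ρ χ x) = (if ψ = χ then (Fintype.card T : Ω) else 0) • FRB_e ρ χ x := by
  rw [FRB_e_apply ρ ψ]
  have h1 : ∀ t, (((ψ t)⁻¹ : Ωˣ) : Ω) • LinearMap.baseChange Ω (ρ t) (FRB_e ρ χ x) =
      ((((ψ t)⁻¹ : Ωˣ) : Ω) * ((χ t : Ωˣ) : Ω)) • FRB_e ρ χ x := fun t => by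
    rw [FRB_e_left, smul_smul]
  rw [Finset.sum_congr rfl fun t _ => h1 t, ← Finset.sum_smul]
  congr 1
  split_ifs with h
  · subst h
    rw [Finset.sum_congr rfl fun t _ => show (((ψ t)⁻¹ : Ωˣ) : Ω) * ((ψ t : Ωˣ) : Ω) = 1 by rw [← Units.val_mul, inv_mul_cancel, Units.val_one]]
    simp
  · exact FRB_orth χ ψ h

theorem FRB_lin [IsAlgClosed Ω] [CharZero Ω] (ρ : T →* Module.End k V) (u : V)
    (hu : Submodule.span k (Set.range fun t => ρ t u) = ⊤) :
    ∃ (J : Type) (_ : Fintype J) (f : Module.Basis J Ω (Ω ⊗[k] V)),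
      ∀ g : Module.End k V, (∀ t, ρ t * g = g * ρ t) → ∀ j, ∃ c : Ω, LinearMap.baseChange Ω g (f j) = c • f j := by
  classical
  have hne : NeZero ((Monoid.exponent T : ℕ) : Ω) := ⟨by
    rw [Nat.cast_ne_zero]
    exact Monoid.exponent_ne_zero_of_finite⟩
  have : NeZero (Monoid.exponent T) := ⟨Monoid.exponent_ne_zero_of_finite⟩
  have : HasEnoughRootsOfUnity Ω (Monoid.exponent T) := inferInstance
  have : Finite (T →* Ωˣ) := by
    refine Nat.finite_of_card_ne_zero ?_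
    rw [CommGroup.card_monoidHom_of_hasEnoughRootsOfUnity]
    exact Nat.card_pos.ne'
  let _ : Fintype (T →* Ωˣ) := Fintype.ofFinite _
  set U : Ω ⊗[k] V := (1 : Ω) ⊗ₜ[k] u with hU
  have hFU : ∀ t, LinearMap.baseChange Ω (ρ t) U = (1 : Ω) ⊗ₜ[k] (ρ t u) := fun t => by
    rw [hU, LinearMap.baseChange_tmul]
  have hspan : Submodule.span Ω (Set.range fun t => LinearMap.baseChange Ω (ρ t) U) = ⊤ := by
    rw [eq_top_iff]
    intro x _
    have h1 : ∀ v : V, (1 : Ω) ⊗ₜ[k] v ∈ Submodule.span Ω (Set.range fun t => LinearMap.baseChange Ω (ρ t) U) := by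
      intro v
      have hv : v ∈ Submodule.span k (Set.range fun t => ρ t u) := by rw [hu]; trivial
      induction hv using Submodule.span_induction with
      | mem v hv =>
        obtain ⟨t, rfl⟩ := hv
        exact Submodule.subset_span ⟨t, hFU t⟩
      | zero => rw [TensorProduct.tmul_zero]; exact Submodule.zero_mem _
      | add v w _ _ hv hw => rw [TensorProduct.tmul_add]; exact Submodule.add_mem _ hv hw
      | smul a v _ hv =>
        have h2 : (1 : Ω) ⊗ₜ[k] (a • v) = (algebraMap k Ω a) • ((1 : Ω) ⊗ₜ[k] v) := by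
          rw [TensorProduct.tmul_smul, TensorProduct.smul_tmul', TensorProduct.smul_tmul', Algebra.smul_def, smul_eq_mul]
        rw [h2]
        exact Submodule.smul_mem _ _ hv
    induction x using TensorProduct.induction_on with
    | zero => exact Submodule.zero_mem _
    | add x y hx hy => exact Submodule.add_mem _ (hx trivial) (hy trivial)
    | tmul a v =>
      have h2 : a ⊗ₜ[k] v = a • ((1 : Ω) ⊗ₜ[k] v) := by
        rw [TensorProduct.smul_tmul', smul_eq_mul, mul_one]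
      rw [h2]
      exact Submodule.smul_mem _ _ (h1 v)
  set w : (T →* Ωˣ) → Ω ⊗[k] V := fun χ => FRB_e ρ χ U with hw
  -- the projections of everything
  have hproj : ∀ χ x, ∃ c : Ω, FRB_e ρ χ x = c • w χ := by
    intro χ x
    have hx : x ∈ Submodule.span Ω (Set.range fun t => LinearMap.baseChange Ω (ρ t) U) := by rw [hspan]; trivial
    induction hx using Submodule.span_induction with
    | mem x hx =>
      obtain ⟨t, rfl⟩ := hx
      exact ⟨_, FRB_e_right ρ χ t U⟩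
    | zero => exact ⟨0, by rw [map_zero, zero_smul]⟩
    | add x y _ _ hx hy =>
      obtain ⟨c, hc⟩ := hx
      obtain ⟨d, hd⟩ := hy
      exact ⟨c + d, by rw [map_add, hc, hd, add_smul]⟩
    | smul a x _ hx =>
      obtain ⟨c, hc⟩ := hx
      exact ⟨a * c, by rw [map_smul, hc, smul_smul]⟩
  -- orthogonality of the second kind
  have horth : ∀ r : T, r ≠ 1 → ∑ χ : T →* Ωˣ, ((χ r : Ωˣ) : Ω) = 0 := by
    intro r hr
    obtain ⟨χ0, hχ0⟩ := CommGroup.exists_apply_ne_one_of_hasEnoughRootsOfUnity T Ω hr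
    have h1 : ((χ0 r : Ωˣ) : Ω) * ∑ χ : T →* Ωˣ, ((χ r : Ωˣ) : Ω) = ∑ χ : T →* Ωˣ, ((χ r : Ωˣ) : Ω) := by
      rw [Finset.mul_sum, ← Equiv.sum_comp (Equiv.mulLeft χ0) (fun χ : T →* Ωˣ => ((χ r : Ωˣ) : Ω))]
      refine Finset.sum_congr rfl fun χ _ => ?_
      rw [Equiv.coe_mulLeft, MonoidHom.mul_apply, Units.val_mul]
    have h2 : (((χ0 r : Ωˣ) : Ω) - 1) * ∑ χ : T →* Ωˣ, ((χ r : Ωˣ) : Ω) = 0 := by
      rw [sub_mul, one_mul, h1, sub_self]
    rcases mul_eq_zero.1 h2 with h3 | h3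
    · exact absurd (Units.ext (sub_eq_zero.1 h3)) hχ0
    · exact h3
  have hcard : ((Fintype.card (T →* Ωˣ) : ℕ) : Ω) ≠ 0 := by
    rw [Nat.cast_ne_zero]
    exact Fintype.card_ne_zero
  have hcardT : ((Fintype.card T : ℕ) : Ω) ≠ 0 := by
    rw [Nat.cast_ne_zero]
    exact Fintype.card_ne_zero
  have hsw : ∀ s, ∑ χ : T →* Ωˣ, ((χ s : Ωˣ) : Ω) • w χ = (Fintype.card (T →* Ωˣ) : Ω) • LinearMap.baseChange Ω (ρ s) U := by
    intro s
    have h1 : ∀ χ : T →* Ωˣ, ((χ s : Ωˣ) : Ω) • w χ = ∑ t, ((χ (s * t⁻¹) : Ωˣ) : Ω) • LinearMap.baseChange Ω (ρ t) U := by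
      intro χ
      rw [hw]
      simp only
      rw [FRB_e_apply, Finset.smul_sum]
      refine Finset.sum_congr rfl fun t _ => ?_
      rw [smul_smul, map_mul, map_inv, Units.val_mul]
    rw [Finset.sum_congr rfl fun χ _ => h1 χ, Finset.sum_comm]
    have h2 : ∀ t, ∑ χ : T →* Ωˣ, ((χ (s * t⁻¹) : Ωˣ) : Ω) • LinearMap.baseChange Ω (ρ t) U =
        if t = s then (Fintype.card (T →* Ωˣ) : Ω) • LinearMap.baseChange Ω (ρ s) U else 0 := by
      intro t
      rw [← Finset.sum_smul]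
      split_ifs with h
      · subst h
        simp
      · rw [horth _ (fun h0 => h (mul_inv_eq_one.1 h0).symm), zero_smul]
    rw [Finset.sum_congr rfl fun t _ => h2 t, Finset.sum_ite_eq' Finset.univ s]
    simp
  let J := {χ : T →* Ωˣ // w χ ≠ 0}
  have hli : LinearIndependent Ω (fun χ : J => w χ.1) := by
    rw [Fintype.linearIndependent_iff]
    intro c hc ψ
    have h1 := congrArg (FRB_e ρ ψ.1) hc
    rw [map_sum, map_zero] at h1
    have h2 : ∀ χ : J, FRB_e ρ ψ.1 (c χ • w χ.1) = if χ = ψ then (c ψ * (Fintype.card T : Ω)) • w ψ.1 else 0 := by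
      intro χ
      rw [map_smul]
      change c χ • FRB_e ρ ψ.1 (FRB_e ρ χ.1 U) = if χ = ψ then (c ψ * (Fintype.card T : Ω)) • FRB_e ρ ψ.1 U else 0
      rw [FRB_ee, smul_smul]
      split_ifs with h3 h4 h4
      · rw [h4]
      · exact absurd (Subtype.ext h3.symm) h4
      · exact absurd (congrArg Subtype.val h4).symm h3
      · rw [mul_zero, zero_smul]
    rw [Finset.sum_congr rfl fun χ _ => h2 χ, Finset.sum_ite_eq' Finset.univ ψ] at h1
    simp only [Finset.mem_univ, if_true] at h1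
    rcases smul_eq_zero.1 h1 with h3 | h3
    · exact (mul_eq_zero.1 h3).resolve_right hcardT
    · exact absurd h3 ψ.2
  have hsp : ⊤ ≤ Submodule.span Ω (Set.range fun χ : J => w χ.1) := by
    rw [← hspan, Submodule.span_le]
    rintro _ ⟨s, rfl⟩
    have h1 := hsw s
    have h2 : LinearMap.baseChange Ω (ρ s) U = ((Fintype.card (T →* Ωˣ) : Ω))⁻¹ • ∑ χ : T →* Ωˣ, ((χ s : Ωˣ) : Ω) • w χ := by
      rw [h1, smul_smul, inv_mul_cancel₀ hcard, one_smul]
    simp only [SetLike.mem_coe]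
    rw [h2]
    refine Submodule.smul_mem _ _ (Submodule.sum_mem _ fun χ _ => Submodule.smul_mem _ _ ?_)
    by_cases h3 : w χ = 0
    · rw [h3]
      exact Submodule.zero_mem _
    · exact Submodule.subset_span ⟨⟨χ, h3⟩, rfl⟩
  refine ⟨J, inferInstance, Module.Basis.mk hli hsp, ?_⟩
  intro g hg χ
  rw [Module.Basis.mk_apply]
  have h1 : LinearMap.baseChange Ω g (w χ.1) = FRB_e ρ χ.1 (LinearMap.baseChange Ω g U) := by
    change LinearMap.baseChange Ω g (FRB_e ρ χ.1 U) = _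
    rw [FRB_e_apply, FRB_e_apply, map_sum]
    refine Finset.sum_congr rfl fun t _ => ?_
    rw [map_smul]
    congr 1
    change (LinearMap.baseChange Ω g ∘ₗ LinearMap.baseChange Ω (ρ t)) U = (LinearMap.baseChange Ω (ρ t) ∘ₗ LinearMap.baseChange Ω g) U
    rw [← LinearMap.baseChange_comp, ← LinearMap.baseChange_comp]
    congr 2
    exact (hg t).symm
  rw [h1]
  exact hproj _ _

end lin

/-! ## The row -/

/-- the span of the orbit of a vector (compare the proof of TD.COM) -/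
theorem FRB_cyc {l q : ℕ} [Fact l.Prime] [Fact q.Prime] (D : Dat l) (ι : Om →+* ℂ) (C : CmpF D q ι) :
    ∃ u : VBq D q, Submodule.span ℚ_[q] (Set.range fun t : Tup Om D.m => zBq D q t u) = ⊤ := by
  have hpos : ∀ i, NeZero (D.m i) := D.pos
  obtain ⟨hinj, hconj⟩ := COM_chars D.m ι
  obtain ⟨w, hw, hw0⟩ := COM_ne C.LB C.latB
  set Lam' : AddSubgroup (FJ.Idx D.m → ℂ) := AddSubgroup.closure (Set.range fun g : Tup Om D.m => FJ.actC ι g w) with hL'
  have hle : Lam' ≤ C.LB := by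
    rw [hL', AddSubgroup.closure_le]
    rintro _ ⟨g, rfl⟩
    exact C.stB g w hw
  have hsp : Submodule.span ℝ (Lam' : Set (FJ.Idx D.m → ℂ)) = ⊤ := by
    rw [eq_top_iff, ← COM_span (COM_chi D.m ι) hinj hconj w hw0, Submodule.span_le]
    rintro _ ⟨g, rfl⟩
    refine Submodule.subset_span ?_
    refine AddSubgroup.subset_closure ⟨g, ?_⟩
    exact COM_act D.m ι g w
  obtain ⟨N, hN, hNL⟩ := COM_ind C.LB Lam' C.latB hle hsp
  set u : VBq D q := C.cB.symm ((1 : ℚ_[q]) ⊗ₜ[ℤ] (⟨w, hw⟩ : C.LB)) with hu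
  have hcu : ∀ t : Tup Om D.m, C.cB (zBq D q t u) = (1 : ℚ_[q]) ⊗ₜ[ℤ] (⟨FJ.actC ι t w, C.stB t w hw⟩ : C.LB) := by
    intro t
    rw [C.zB, hu, LinearEquiv.apply_symm_apply, COM_indQ]
    rfl
  refine ⟨u, ?_⟩
  have h1 : ∀ y ∈ Lam', ∀ hy : y ∈ C.LB, ((1 : ℚ_[q]) ⊗ₜ[ℤ] (⟨y, hy⟩ : C.LB)) ∈
      Submodule.span ℚ_[q] (Set.range fun t : Tup Om D.m => C.cB (zBq D q t u)) := by
    intro y hy
    induction hy using AddSubgroup.closure_induction with
    | mem x hx =>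
      obtain ⟨t, rfl⟩ := hx
      intro hy
      refine Submodule.subset_span ⟨t, ?_⟩
      exact hcu t
    | zero =>
      intro hy
      have : (⟨0, hy⟩ : C.LB) = 0 := rfl
      rw [this, TensorProduct.tmul_zero]
      exact Submodule.zero_mem _
    | add x y hx hy ihx ihy =>
      intro hxy
      have : (⟨x + y, hxy⟩ : C.LB) = ⟨x, hle hx⟩ + ⟨y, hle hy⟩ := rfl
      rw [this, TensorProduct.tmul_add]
      exact Submodule.add_mem _ (ihx _) (ihy _)
    | neg x hx ihx =>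
      intro hxy
      have : (⟨-x, hxy⟩ : C.LB) = -⟨x, hle hx⟩ := rfl
      rw [this, TensorProduct.tmul_neg]
      exact Submodule.neg_mem _ (ihx _)
  have h2 : ∀ x : C.LB, ((1 : ℚ_[q]) ⊗ₜ[ℤ] x) ∈
      Submodule.span ℚ_[q] (Set.range fun t : Tup Om D.m => C.cB (zBq D q t u)) := by
    intro x
    have h3 := h1 (N • (x : FJ.Idx D.m → ℂ)) (hNL x x.2) (C.LB.nsmul_mem x.2 N)
    have h4 : (⟨N • (x : FJ.Idx D.m → ℂ), C.LB.nsmul_mem x.2 N⟩ : C.LB) = N • x := rfl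
    rw [h4, TensorProduct.tmul_smul] at h3
    have h5 := Submodule.smul_mem _ ((N : ℚ_[q])⁻¹) h3
    have hN0 : (N : ℚ_[q]) ≠ 0 := Nat.cast_ne_zero.mpr hN.ne'
    have h6 : ((N : ℚ_[q])⁻¹) • N • ((1 : ℚ_[q]) ⊗ₜ[ℤ] x) = (1 : ℚ_[q]) ⊗ₜ[ℤ] x := by
      rw [← Nat.cast_smul_eq_nsmul ℚ_[q], smul_smul, inv_mul_cancel₀ hN0, one_smul]
    rwa [h6] at h5
  have h3 : Submodule.span ℚ_[q] (Set.range fun t : Tup Om D.m => C.cB (zBq D q t u)) = ⊤ := by
    rw [eq_top_iff]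
    intro x _
    induction x using TensorProduct.induction_on with
    | zero => exact Submodule.zero_mem _
    | add x y hx hy => exact Submodule.add_mem _ (hx Submodule.mem_top) (hy Submodule.mem_top)
    | tmul a x =>
      have : a ⊗ₜ[ℤ] x = a • ((1 : ℚ_[q]) ⊗ₜ[ℤ] x) := by
        rw [TensorProduct.smul_tmul', smul_eq_mul, mul_one]
      rw [this]
      exact Submodule.smul_mem _ _ (h2 x)
  rw [eq_top_iff]
  intro v _
  have h4 : C.cB v ∈ Submodule.span ℚ_[q] (Set.range fun t : Tup Om D.m => C.cB (zBq D q t u)) := by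
    rw [h3]; exact Submodule.mem_top
  have h5 : Submodule.map C.cB.toLinearMap (Submodule.span ℚ_[q] (Set.range fun t : Tup Om D.m => zBq D q t u)) =
      Submodule.span ℚ_[q] (Set.range fun t : Tup Om D.m => C.cB (zBq D q t u)) := by
    rw [Submodule.map_span, ← Set.range_comp]
    rfl
  rw [← h5] at h4
  obtain ⟨v', hv', hvv⟩ := h4
  have : v' = v := C.cB.injective hvv
  rw [← this]
  exact hv'

/-- the action of the roots of unity as a homomorphism -/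
def FRB_rho (h10 : R10_stmt) (hA4 : FJ.A4_stmt) {l : ℕ} [Fact l.Prime] (D : Dat l) (q : ℕ) [Fact q.Prime] :
    Tup Om D.m →* Module.End ℚ_[q] (VBq D q) where
  toFun t := zBq D q t
  map_one' := LinearMap.ext fun f => VT.ext fun x => T6_act_id h10 hA4 (RingEquiv.refl Om) (fun _ => rfl) (f.val x)
  map_mul' s t := LinearMap.ext fun f => VT.ext fun x =>
    (LGF_act h10 hA4 _ _ (RingEquiv.refl Om) _ _ _ (fun _ => rfl) (fun i => by simp [mul_comm]) (fun i => by simp [mul_comm]) _).symm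

theorem FRB (h10 : R10_stmt) (hA4 : FJ.A4_stmt) : FRB_stmt := by
  intro l q _ _ D ι C Ω _ _ _ _
  have hpos : ∀ i, NeZero (D.m i) := D.pos
  have : Finite (Tup Om D.m) := inferInstance
  let _ : Fintype (Tup Om D.m) := Fintype.ofFinite _
  obtain ⟨u, hu⟩ := FRB_cyc D ι C
  obtain ⟨J, hJ, f, hf⟩ := FRB_lin (Ω := Ω) (FRB_rho h10 hA4 D q) u hu
  refine ⟨J, hJ, f, ?_⟩
  intro g hg j
  exact hf (galBq D q g) (fun t => LGF_comm D q h10 hA4 g hg t) j

end

end Pool.Agent.AKL
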