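import Pool.Agent.helper63.TI.SpecP
import Pool.Agent.helper85.AQ.SpecB
import Pool.Agent.helper47.AKL.FRB

/-!
# Project A+ (MP_3703a7_ag, rows ta:K*): THE ASSEMBLY: Tate classes are killed by the special unitary Lie algebras, for one prime `q`

Rules: every `XX_stmt` is proved in `Pool/Agent/<seat>/AKL/XX.lean`: `import Pool.Agent.helper47.AKL.SpecK`, `set_option autoImplicit false`, `namespace Pool.Agent.AKL`, the open lines of this file, `noncomputable section`,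
`theorem XX (h : YY_stmt) ... : XX_stmt`; hypotheses: other statements of the project (not circularly) and ANY proved statement of the older projects. Auxiliary lemmas are prefixed `XX_`. No sorry, no double quotes, no `congr!`, no `convert`.
-/

set_option autoImplicit false

namespace Pool.Agent.AKL

open Polynomial Pool.Agent.HC Pool.Agent.HC.SJ Pool.Agent.SJ Pool.Agent.GJ Pool.Agent.TK Pool.Agent.TD
open Pool.Agent.FJ (VT Om chiO Jac Tup)
open Pool.Agent.AQ (PF galP eg Blk)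
open Pool.Agent.TQ (VA galA zA)
open Pool.Agent.TI (TZ WA bs ES WC PL1_stmt PL2_stmt)
open scoped TensorProduct

noncomputable section

/-! ## Definitions -/

/-- the automorphisms of `ℚbar` which fix the `l`-th roots of unity -/
def G0 (l : ℕ) : Subgroup (Om ≃+* Om) where
  carrier := {σ | ∀ x : Om, x ^ l = 1 → σ x = x}
  mul_mem' := by
    intro σ τ hσ hτ x hx
    show σ (τ x) = x
    rw [hτ x hx, hσ x hx]
  one_mem' := fun x _ => rfl
  inv_mem' := by
    intro σ hσ x hx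
    show σ.symm x = x
    rw [RingEquiv.symm_apply_eq, hσ x hx]

/-- every automorphism over `ℚ(ζ_l)` permutes the branch points of every curve -/
def AllP {l : ℕ} [Fact l.Prime] (D : Dat l) : Prop := ∀ σ : Om ≃+* Om, (∀ x : Om, x ^ l = 1 → σ x = x) → PF D σ

/-- THE LOCAL HYPOTHESIS for the curve `i` and the prime `q`: `n_i + 1` is a prime number; there are automorphisms `τ`, `φ` over `ℚ(ζ_l)`, `φ` with the property `WC` (on `V_l`), such that on every eigenspace `E` of `ζ` in `Ω_q ⊗ V_q(J_i)` the operator `τ^(n_i + 1)` is a scalar, and `E` is irreducible under `τ` and `φ`. -/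
structure Loc {l : ℕ} [Fact l.Prime] (D : Dat l) (q : ℕ) [Fact q.Prime] (i : Fin D.k) : Prop where
  pr : (D.n i + 1).Prime
  ex : ∃ (τ φ : Om ≃+* Om) (hτ : PF D τ) (hφ : PF D φ), WC D i φ ∧
    ∀ s : rootsOfUnity l Om, Prim s → ∀ ζ : PadicAlgCl q, IsPrimitiveRoot ζ l → ∀ r : ℕ, 0 < r → r < l →
      (∃ c : PadicAlgCl q, ∀ x ∈ ES D q i s ζ r, ((bs (galP q hτ i) : Module.End (PadicAlgCl q) (WA D q i)) ^ (D.n i + 1)) x = c • x) ∧
      ∀ W : Submodule (PadicAlgCl q) (WA D q i), W ≤ ES D q i s ζ r → (∀ w ∈ W, bs (galP q hτ i) w ∈ W) → (∀ w ∈ W, bs (galP q hφ i) w ∈ W) →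
        W = ⊥ ∨ W = ES D q i s ζ r

/-! ## The theorem -/

/-- KST. TATE CLASSES ARE KILLED BY `su`, for the prime `q`. (The conclusion is the hypothesis of `TD.ZY_stmt` for `D = dtF ..`.) -/
def KST_stmt : Prop := ∀ (l q : ℕ) [Fact l.Prime] [Fact q.Prime], l ≠ 2 → ∀ D : Dat l, (∀ i, 0 < D.n i) → D.Ind → D.Sep → AllP D →
  (∃ θ : ∀ i, ExteriorAlgebra ℚ_[l] (VA D l i), TQ.IsOK D θ) → (∀ i, Loc D q i) →
  ∀ (ι : Om →+* ℂ) (C : CmpF D q ι) (S : Finset Om) (b : ℕ) (X : ExteriorAlgebra ℚ_[q] (TQ.V D q × VBq D q)),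
    IsTateF D S b X → KillF C.toCmp.tht X

/-! ## Rows -/

/-- KNB (medium). NO BLOCK IS MOVED. `AQ.LNM_stmt` for `Ω = PadicAlgCl q` (a normed field), `V = WA D q i` (finite dimensional: the basis in `IsOK.free`), `m = n_i + 1`, `U = ES D q i s ζ (r + 1)`, `ζ = jq s` (a primitive root: `jq` is injective): `finrank U = n_i` by `AQ.LDE_stmt` (`IsOK.free`; `∑ Z^j = 0`: NB1; `TQ.zA` is an abbreviation by definition for the `Z` there);
`e` = the basis `1 ⊗ b_j` (`Algebra.TensorProduct.basis` or `Module.Basis.baseChange`) for the basis `b` of `V_q` with `v ∈ T ↔ ∀ j, ‖b.repr v j‖ ≤ 1` (`TQ.Lat`, from NB1: `T = TZ D q i`, the same elements); `G` = the automorphisms of `V` whose linear map is `bs (galP q h i)` for some `h : PF D g` (a subgroup: BGP_stmt, for instance the range of a homomorphism on the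
subgroup `{σ | PF D σ}`); `T`, `Φ` = the elements for `τ`, `φ` of `Loc` (powers of `galP`: BGP and induction). For `ε`, `s0`: choose `K` with `‖q^K‖ = q^(-K) ≤ ε`; PL2_stmt: `F`, `u`; `F ^ r' = φ * u`; `bs (galP u) (1 ⊗ b_j) - 1 ⊗ b_j = 1 ⊗ q^K t'`, `t' ∈ T`, so the coordinates are `q^K` times numbers of norm `≤ 1` (`PadicAlgCl q` is a normed
algebra over `ℚ_[q]`: `norm_algebraMap'`; `b_j ∈ T`). The set `S` is permuted by `G`. -/
def KNB_stmt : Prop := ∀ (l q : ℕ) [Fact l.Prime] [Fact q.Prime], l ≠ 2 → ∀ D : Dat l, (∀ i, 0 < D.n i) → D.Ind → D.Sep → AllP D →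
  (∃ θ : ∀ i, ExteriorAlgebra ℚ_[l] (VA D l i), TQ.IsOK D θ) → ∀ θ : ∀ i, ExteriorAlgebra ℚ_[q] (VA D q i), TQ.IsOK D θ → ∀ i : Fin D.k, Loc D q i →
  ∀ (jq : Om →+* PadicAlgCl q) (s : rootsOfUnity l Om), Prim s → ∀ (r : Fin ((l - 1) / 2)) (S : Finset (Submodule (PadicAlgCl q) (WA D q i))),
    Blk S → S.card ≤ D.n i → (∀ U ∈ S, U ≤ ES D q i s (jq ((s : Omˣ) : Om)) ((r : ℕ) + 1)) →
    (∀ (g : Om ≃+* Om) (hg : PF D g), ∀ U ∈ S, U.map (bs (galP q hg i)) ∈ S) → ∀ (g : Om ≃+* Om) (hg : PF D g), ∀ U ∈ S, U.map (bs (galP q hg i)) = U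

/-- KOK (short). `V_l(J_i)` IS FREE AND HAS A CLASS `θ_i`, for every prime number `q` (in particular for `q = l`). `IsOK (dtF D E) θ` does not depend on `D.e` and `E` (by definition: `VA`, `zA`, `galA`, `Fix` use only `n`, `μ`, `a`). Let `D0 = {D with e := fun _ => 0}`; `B` = the torus with `W = (Fin 0 → ℂ)`, `Lam = ⊤`; `ι` any embedding (`IsAlgClosed.lift`);
`T : Isog D0 ι B`: `L`, `F` from `CM.STD_stmt` as at the beginning of `Pool/Agent/helper82/TD/ZY.lean`, `p i c` for `c : Fin 0` by `c.elim0`, `bij` trivial (one point). `TQC.QN4_stmt`: `e`, `f`; `TQC.QCM_stmt`: `P : PreQ T f`; `P.cmp : TQ.Cmp (dt D0) q ι`; `TQ.C1_OK P.cmp ..` in `Pool/Agent/helper76/TQ/C1.lean` (hypotheses as for KLF: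
`hKJO : KJO_stmt`, `CL2_stmt`, `CL3_stmt`, `CP1_stmt`; `D.npos`); take the structures `IsOK`, `IsTh` apart and put them together again for `dtF D E`. -/
def KOK_stmt : Prop := ∀ (l : ℕ) [Fact l.Prime], l ≠ 2 → ∀ (D : Pool.Agent.TN.Cvs l) (E : Pool.Agent.TF.Fer) (q : ℕ) [Fact q.Prime],
  ∃ θ : ∀ i, ExteriorAlgebra ℚ_[q] (VA (dtF D E) q i), TQ.IsOK (dtF D E) θ

/-- KL1 (short-medium). THE LOCAL HYPOTHESIS FOR `n_i = 1`. `τ = φ = 1`: `galP q h i = id` for `h : PF D 1` (BGP_stmt); `E` has dimension `1` (`AQ.LDE_stmt`, `IsOK.free`, NB1), so every subspace is `⊥` or `E`; `τ^2 = 1`. `WC D i 1`: `κ = 1`, `ξ = 1` (`Fin (D.n i)` has one element), `u` = any basis of `ES D l i s ζ r`. -/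
def KL1_stmt : Prop := ∀ (l q : ℕ) [Fact l.Prime] [Fact q.Prime], l ≠ 2 → ∀ D : Dat l, (∃ θ : ∀ i, ExteriorAlgebra ℚ_[l] (VA D l i), TQ.IsOK D θ) →
  (∃ θ : ∀ i, ExteriorAlgebra ℚ_[q] (VA D q i), TQ.IsOK D θ) → ∀ i : Fin D.k, D.n i = 1 → Loc D q i

/-- KLO (medium). THE LOCAL HYPOTHESIS FROM AN EISENSTEIN PRIME `p ≠ q`. `AQ.BRF_stmt`: `τ`, `φ`. The second part of `Loc`: BRF for `q` (`Ω = PadicAlgCl q`): on the basis `v_j` of `E` the operator `τ^m`, `m = n_i + 1`, is `c^m ω^(m (j+1)) = c^m`. `WC D i φ`: BRF for the prime `l` (`l ≠ p` as `l ∣ p - 1`), `Ω = PadicAlgCl l`: `φ v_j = d_j v_(j')`, `(j' + 1) p = j + 1`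
modulo `m`; `p` generates the group of units modulo `m`, so `j ↦ j'` is ONE cycle of length `n = n_i`: with `w_k = φ^k v_0` (multiples of the `v_j`, a basis of `E` for `k < n`), `φ^n v_0 = κ v_0`, `κ ≠ 0`; `ω'` a primitive `n`-th root of unity, `ξ^n = κ`, `ξ_t = ξ ω'^t`, `u_t = ∑_k ξ_t^(-k) w_k`: `φ u_t = ξ_t u_t`, `u_t ≠ 0`; eigenvectors for different
eigenvalues are linearly independent, so a basis. (Or use the row of helper63 for `WC`.) -/
def KLO_stmt : Prop := ∀ (l p : ℕ) [Fact l.Prime] [Fact p.Prime], l ≠ 2 → l ∣ p - 1 → ∀ D : Dat l, AllP D → ∀ i : Fin D.k, (D.n i + 1).Prime →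
  (∀ x y : ZMod (D.n i + 1), x ≠ 0 → y ≠ 0 → ∃ k : ℕ, y = (p : ZMod (D.n i + 1)) ^ k * x) → (∀ j, D.μ i j = D.μ i 0) →
  ∀ (F : ℤ[X]) (u : ℤ), F.Monic → F.IsEisensteinAt (Ideal.span {(p : ℤ)}) → F.map (Int.castRingHom Om) = ∏ j, (X - C (D.a i j - (u : Om))) →
  ∀ (q : ℕ) [Fact q.Prime], q ≠ p → Loc D q i

end

end Pool.Agent.AKL
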